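import Mathlib
import Pool.Agent.H932R7.Final2

set_option autoImplicit false

/-!
# Segre's conjecture for arbitrary bounded multiplicities in degrees of order `μ ^ (3 / 2)`

General points of the complex projective plane with arbitrary multiplicities `m i ≤ μ`. Let
`1 ≤ q ≤ μ` be such that for every point of multiplicity `m i > q` the points of smaller
multiplicities (`≥ 2`, or `≥ 1` if `q = 1`) satisfy `∑ m j (m j + 1) ≥ 2 m i (m i + 1) (m i + 2)`
(no condition if `q = μ`). Let `A = ∑ (m i + 1).choose 2`. Then for every degree `d` with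
`μ (μ + 1) (μ + 6 √μ + 10) ≤ max ((d + 1) (d + 2), A)` the linear system is not special if
`|(d + 2).choose 2 - A| ≥ 2 (q + 1).choose 3`, where simple points need not be counted in `A` on the
side of independence, and also, without this last condition, if no multiplicity lies strictly
between `1` and `q`.
-/

namespace Pool.Agent.Results.MP_cfebfb_ag.BoundedMultiplicities

open MvPolynomial

theorem result (h μ q : ℕ) (hq : 0 < q) (hqμ : q ≤ μ) (m : Fin h → ℕ) (hm : ∀ i, m i ≤ μ)
    (hfreq : ∀ i, q < m i → 2 * (m i * (m i + 1) * (m i + 2)) ≤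
      ∑ j ∈ Finset.univ.filter (fun j => min 2 q ≤ m j ∧ m j < m i), m j * (m j + 1)) :
    ∃ Q : MvPolynomial (Fin h × Fin 3) ℂ, Q ≠ 0 ∧
      ∀ p : Fin h → Fin 3 → ℂ,
        MvPolynomial.eval (fun ij : Fin h × Fin 3 => p ij.1 ij.2) Q ≠ 0 →
        ∀ d : ℕ,
          (μ : ℝ) * (μ + 1) * (μ + 6 * Real.sqrt μ + 10) ≤
              ((max ((d + 1) * (d + 2)) (∑ i, (m i + 1).choose 2) : ℕ) : ℝ) →
          ((d + 2).choose 2 + 2 * (q + 1).choose 3 ≤ ∑ i, (m i + 1).choose 2 ∨
            ∑ i ∈ Finset.univ.filter (fun i => m i ≠ 1), (m i + 1).choose 2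
              + 2 * (q + 1).choose 3 ≤ (d + 2).choose 2 ∨
            ∀ i, m i ≤ 1 ∨ q ≤ m i) →
          ∀ F : Fin ((d + 2).choose 2 - ∑ i, (m i + 1).choose 2 + 1) →
            MvPolynomial (Fin 3) ℂ,
          (∀ k, F k ∈ MvPolynomial.homogeneousSubmodule (Fin 3) ℂ d ∧
            ∀ i, ∀ n : Fin 3 →₀ ℕ, ∑ j, n j < m i →
              MvPolynomial.coeff n
                (MvPolynomial.aeval (R := ℂ)
                  (fun j : Fin 3 => (X j + C (p i j) : MvPolynomial (Fin 3) ℂ)) (F k)) = 0) →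
          ¬ LinearIndependent ℂ F := by
  obtain ⟨Q, hQ, hQ'⟩ := H932R3.not_special_of (L := ℂ) (H932R7.bounded2 ℂ hq hqμ hm hfreq)
  exact ⟨Q, hQ, fun p hp d h1 h2 => hQ' p hp d ⟨h1, h2⟩⟩

end Pool.Agent.Results.MP_cfebfb_ag.BoundedMultiplicities
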