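import Mathlib
import Pool.Agent.H932R3.NearFinal

set_option autoImplicit false

/-!
# Segre's conjecture for multiplicities differing by at most one

For `h > 9` general points of the complex projective plane with multiplicities
`m i ∈ {μ, μ + 1}`, where `μ + 1 ≤ h - 6 √h + 11` (or the slightly weaker numerical condition
below holds), the linear system of curves of degree `d` with these multiplicities is not special,
for any `d`: no family of more than the expected number of forms is linearly independent.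
-/

namespace Pool.Agent.Results.MP_cfebfb_ag.NearUniformNeverSpecial

open MvPolynomial

theorem result (h : ℕ) (hh : 9 < h) (μ : ℕ) (hμ : 0 < μ) (m : Fin h → ℕ)
    (hm : ∀ i, m i = μ ∨ m i = μ + 1)
    (hb : ((μ + 1 : ℕ) : ℝ) ≤ h - 6 * Real.sqrt h + 11 ∨
      ∃ δ κ : ℕ, 2 ≤ δ ∧ h = δ ^ 2 + 2 * κ ∧
        (κ = 0 ∨ ∑ i, m i * (m i + 1) < δ ^ 2 * (δ ^ 2 + 3) * (δ ^ 2 + 4))) :
    ∃ Q : MvPolynomial (Fin h × Fin 3) ℂ, Q ≠ 0 ∧
      ∀ p : Fin h → Fin 3 → ℂ,
        MvPolynomial.eval (fun ij : Fin h × Fin 3 => p ij.1 ij.2) Q ≠ 0 →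
        ∀ (d : ℕ) (F : Fin ((d + 2).choose 2 - ∑ i, (m i + 1).choose 2 + 1) →
          MvPolynomial (Fin 3) ℂ),
          (∀ k, F k ∈ MvPolynomial.homogeneousSubmodule (Fin 3) ℂ d ∧
            ∀ i, ∀ n : Fin 3 →₀ ℕ, ∑ j, n j < m i →
              MvPolynomial.coeff n
                (MvPolynomial.aeval (R := ℂ)
                  (fun j : Fin 3 => (X j + C (p i j) : MvPolynomial (Fin 3) ℂ)) (F k)) = 0) →
          ¬ LinearIndependent ℂ F :=
  H932R3.near_not_special (L := ℂ) (by omega) hμ hm (H932R3.near_cond hh hm hb)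

end Pool.Agent.Results.MP_cfebfb_ag.NearUniformNeverSpecial
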