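import Mathlib
import Pool.Agent.H932R6.FinalR

set_option autoImplicit false

/-!
# Segre's conjecture for nearly equal multiplicities up to `h ^ q`: all degrees but at most one

For every `q` and `ε > 0` there is an `N` such that for `h ≥ N` general points of the complex
projective plane with multiplicities `m i ∈ {μ, μ + 1}`, `1 ≤ μ ≤ h ^ q`, the linear system of
curves of degree `d` with these multiplicities is not special for any `d` with
`|2 d + 3 - √h - 2 (∑ m i) / √h| ≥ ε`.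
-/

namespace Pool.Agent.Results.MP_cfebfb_ag.NeverSpecialAllButOne

open MvPolynomial

theorem result (q : ℕ) (ε : ℝ) (hε : 0 < ε) : ∃ N : ℕ, ∀ h : ℕ, N ≤ h → ∀ μ : ℕ, 0 < μ → μ ≤ h ^ q →
    ∀ m : Fin h → ℕ, (∀ i, m i = μ ∨ m i = μ + 1) →
    ∃ Q : MvPolynomial (Fin h × Fin 3) ℂ, Q ≠ 0 ∧
      ∀ p : Fin h → Fin 3 → ℂ,
        MvPolynomial.eval (fun ij : Fin h × Fin 3 => p ij.1 ij.2) Q ≠ 0 →
        ∀ d : ℕ, ε ≤ |2 * (d : ℝ) + 3 - Real.sqrt h - 2 * (∑ i, (m i : ℝ)) / Real.sqrt h| →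
          ∀ F : Fin ((d + 2).choose 2 - ∑ i, (m i + 1).choose 2 + 1) →
            MvPolynomial (Fin 3) ℂ,
          (∀ k, F k ∈ MvPolynomial.homogeneousSubmodule (Fin 3) ℂ d ∧
            ∀ i, ∀ n : Fin 3 →₀ ℕ, ∑ j, n j < m i →
              MvPolynomial.coeff n
                (MvPolynomial.aeval (R := ℂ)
                  (fun j : Fin 3 => (X j + C (p i j) : MvPolynomial (Fin 3) ℂ)) (F k)) = 0) →
          ¬ LinearIndependent ℂ F := by
  obtain ⟨N, hN, h'⟩ := H932R6.exists_data (q + 1) hε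
  refine ⟨N, fun h hh μ hμ hμq m hm => ?_⟩
  obtain ⟨u, v, δ, σ, hD⟩ := h' h hh
  obtain ⟨Q, hQ, hQ'⟩ := H932R3.not_special_of (L := ℂ) (H932R6.win_expR hD (by omega) hμ
    (by
      have h2 : 1 ≤ h ^ q := Nat.one_le_pow _ _ (by omega)
      have h3 : h ^ (q + 1) = h ^ q * h := pow_succ h q
      have h4 : h ^ q * 2 ≤ h ^ q * h := Nat.mul_le_mul_left _ (by omega)
      omega) hm)
  exact ⟨Q, hQ, fun p hp d hd => hQ' p hp d hd⟩

end Pool.Agent.Results.MP_cfebfb_ag.NeverSpecialAllButOne
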