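import Mathlib
import Pool.Agent.H932R3.Finals

set_option autoImplicit false

/-!
# Segre's conjecture for all multiplicities, up to relative error `h ^ -q`

For every `q` there is an `N` such that for all `h ≥ N`, ALL multiplicities `m 1, …, m h` and all
`d > 0` with `√h d ≤ (1 - h ^ (-q)) ∑ m i`, or with `d ≥ (1 + h ^ (-q)) √h m i + √h` for all `i`,
the linear system of curves of degree `d` with multiplicities `m i` at `h` general points of the
complex projective plane is not special.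
-/

namespace Pool.Agent.Results.MP_cfebfb_ag.NeverSpecialEveryVector

open MvPolynomial

theorem result (q : ℕ) : ∃ N : ℕ, ∀ h : ℕ, N ≤ h → ∀ m : Fin h → ℕ,
    ∃ Q : MvPolynomial (Fin h × Fin 3) ℂ, Q ≠ 0 ∧
      ∀ p : Fin h → Fin 3 → ℂ,
        MvPolynomial.eval (fun ij : Fin h × Fin 3 => p ij.1 ij.2) Q ≠ 0 →
        ∀ d : ℕ, (0 < d ∧
          (Real.sqrt h * d ≤ (1 - 1 / (h : ℝ) ^ q) * ∑ i, (m i : ℝ) ∨
            ∀ i, (1 + 1 / (h : ℝ) ^ q) * (Real.sqrt h * m i) + Real.sqrt h ≤ d)) →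
          ∀ F : Fin ((d + 2).choose 2 - ∑ i, (m i + 1).choose 2 + 1) →
            MvPolynomial (Fin 3) ℂ,
          (∀ k, F k ∈ MvPolynomial.homogeneousSubmodule (Fin 3) ℂ d ∧
            ∀ i, ∀ n : Fin 3 →₀ ℕ, ∑ j, n j < m i →
              MvPolynomial.coeff n
                (MvPolynomial.aeval (R := ℂ)
                  (fun j : Fin 3 => (X j + C (p i j) : MvPolynomial (Fin 3) ℂ)) (F k)) = 0) →
          ¬ LinearIndependent ℂ F := by
  obtain ⟨N, hN, h'⟩ := H932R3.wedge_exp q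
  refine ⟨N, fun h hh m => ?_⟩
  obtain ⟨F, hF, hF'⟩ := h' ℂ h hh m
  exact H932R3.not_special_of (L := ℂ) ⟨F, hF, fun P hP d hd => hF' P hP d hd.1 hd.2⟩

end Pool.Agent.Results.MP_cfebfb_ag.NeverSpecialEveryVector
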